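import Pool.Agent.H180.Mo.Bad

/-! Commutators of elations; symmetry of the homologies. -/

set_option autoImplicit false
set_option linter.unusedSectionVars false

namespace Pool.Agent.H180.Sg

open Configuration Configuration.ProjectivePlane Finset MulAction Pool.Agent.H634R3.PPC
  Pool.Agent.H634R3.WG Pool.Agent.TH56.TO Pool.Agent.H180.Pp Pool.Agent.H180.Pf
  Pool.Agent.N367.PPD

section

variable {G P L : Type} [Group G] [Finite G] [Fintype P] [Fintype L] [Membership P L]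
  [ProjectivePlane P L] [MulAction G P] [MulAction G L]

theorem persp_conj (hC : Col G P L) {σ ρ : G} {c : P} {a : L} (h : Persp σ c a) :
    Persp (ρ * σ * ρ⁻¹) (ρ • c) (ρ • a) := by
  constructor
  · intro p hp
    have h1 : ρ⁻¹ • p ∈ a := by
      rw [← hC.inc ρ, smul_inv_smul]; exact hp
    rw [mul_smul, mul_smul, h.ax _ h1, smul_inv_smul]
  · intro m hm
    have h1 : c ∈ ρ⁻¹ • m := by
      rw [← hC.inc ρ, smul_inv_smul]; exact hm
    rw [mul_smul, mul_smul, h.ce _ h1, smul_inv_smul]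

/-- the commutator of two elations -/
theorem comm_ela (hC : Col G P L) {σ τ : G} {c c' : P} {a a' : L} (hσ : Persp σ c a)
    (hτ : Persp τ c' a') (hσ1 : σ ≠ 1) (hτ1 : τ ≠ 1) (hca : c ∈ a) (hca' : c ∈ a')
    (hc'a' : c' ∈ a') (hc'a : c' ∉ a) : ∃ ρ : G, ρ ≠ 1 ∧ Persp ρ c a' := by
  obtain ⟨f1, f2, f3, f4⟩ := TaskFix.taskFix G P L hC σ c a hσ hσ1
  obtain ⟨g1, g2, g3, g4⟩ := TaskFix.taskFix G P L hC τ c' a' hτ hτ1
  have hτc : τ • c = c := hτ.ax c hca'
  have hσa' : σ • a' = a' := hσ.ce a' hca'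
  refine ⟨σ⁻¹ * τ⁻¹ * σ * τ, ?_, ?_, ?_⟩
  · intro h
    have h1 : σ * τ = τ * σ := by
      have h2 : (τ * σ)⁻¹ * (σ * τ) = 1 := by
        rw [mul_inv_rev]
        rw [← h]; group
      rw [inv_mul_eq_one] at h2
      exact h2.symm
    -- the axis is mapped to itself
    have h3 : τ⁻¹ • a = a := by
      by_contra hne
      obtain ⟨p, hp, hpc, -⟩ := exists_ne_ne (P := P) (τ⁻¹ • a) c c
      have h4 : τ • p ∈ a := by
        have := (hC.inc τ p (τ⁻¹ • a)).2 hp
        rwa [smul_inv_smul] at this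
      have h5 : σ • p = p := by
        have h6 : τ • (σ • p) = τ • p := by
          rw [← mul_smul, ← h1, mul_smul, hσ.ax _ h4]
        exact smul_left_cancel τ h6
      have h7 : c ∈ τ⁻¹ • a := by
        have h8 := (hC.inc τ⁻¹ c a).2 hca
        have h9 : τ⁻¹ • c = c := by rw [inv_smul_eq_iff]; exact hτc.symm
        rwa [h9] at h8
      rcases f1 p h5 with h8 | h8
      · exact hpc h8
      · exact hpc (pt_eq hne hp h7 h8 hca)
    have h4 : τ • a = a := by
      rw [inv_smul_eq_iff] at h3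
      exact h3.symm
    rcases g2 a h4 with h5 | h5
    · exact hc'a (h5 ▸ hc'a')
    · exact hc'a h5
  · intro p hp
    have h1 : τ • p = p := hτ.ax p hp
    have h2 : σ • p ∈ a' := by
      have := (hC.inc σ p a').2 hp
      rwa [hσa'] at this
    have h3 : τ⁻¹ • σ • p = σ • p := by rw [inv_smul_eq_iff]; exact (hτ.ax _ h2).symm
    rw [mul_smul, mul_smul, mul_smul, h1, h3, inv_smul_smul]
  · intro m hm
    have h1 : c ∈ τ • m := by
      have := (hC.inc τ c m).2 hm
      rwa [hτc] at this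
    have h2 : σ • τ • m = τ • m := hσ.ce _ h1
    have h3 : σ⁻¹ • m = m := by rw [inv_smul_eq_iff]; exact (hσ.ce m hm).symm
    rw [mul_smul, mul_smul, mul_smul, h2, inv_smul_smul, h3]

/-- if there are no elations with centre `b`, there is at most one axis of homologies with centre `b` -/
theorem axis_unique (hC : Col G P L) (b : P)
    (hE : ∀ (g : G) (a : L), b ∈ a → Persp g b a → g = 1) {g h : G} {a a' : L}
    (hg : g ≠ 1) (hh : h ≠ 1) (hPg : Persp g b a) (hPh : Persp h b a') (ha : b ∉ a) (ha' : b ∉ a') :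
    a = a' := by
  obtain ⟨c₀, h₀⟩ := exists_pt (P := Dual L) (L := Dual P) b
  have hCd := col_dual hC
  have h1 := cen_le (P := Dual L) (L := Dual P) (col_sub hCd (HA (P := Dual L) (L := Dual P) G b))
    (HA_ax (P := Dual L) (L := Dual P) b) h₀
  have h3 := card_EA_sub (P := Dual L) (L := Dual P) hCd (l := b) h₀
  replace h1 := h1.trans (le_of_eq h3)
  have h4 : Nat.card (EA (P := Dual L) (L := Dual P) hCd b c₀ h₀) ≤ 1 := by
    rw [Finite.card_le_one_iff_subsingleton]
    refine ⟨fun x y => ?_⟩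
    have : ∀ x : EA (P := Dual L) (L := Dual P) hCd b c₀ h₀, x.1 = 1 := by
      intro x
      obtain ⟨c, hc, hP⟩ := (mem_EA (P := Dual L) (L := Dual P) hCd).1 x.2
      exact hE x.1 c hc ⟨hP.ce, hP.ax⟩
    exact Subtype.ext ((this x).trans (this y).symm)
  have h5 := h1.trans h4
  rw [Finite.card_le_one_iff_subsingleton] at h5
  obtain ⟨-, -, -, k1⟩ := TaskFix.taskFix G P L hC g b a hPg hg
  obtain ⟨-, -, -, k2⟩ := TaskFix.taskFix G P L hC h b a' hPh hh
  have e := h5.elim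
    ⟨a, ha, ⟨g, hPg.ce⟩, fun e => hg (congrArg Subtype.val e), k1⟩
    ⟨a', ha', ⟨h, hPh.ce⟩, fun e => hh (congrArg Subtype.val e), k2⟩
  exact congrArg Subtype.val e

/-- two homologies -/
theorem hom_sym (hC : Col G P L) {σ τ : G} {c c' : P} {a a' : L}
    (hE : ∀ (g : G) (a : L), c ∈ a → Persp g c a → g = 1) (hσ : Persp σ c a)
    (hτ : Persp τ c' a') (hσ1 : σ ≠ 1) (hτ1 : τ ≠ 1) (hca : c ∉ a) (hca' : c ∈ a') : c' ∈ a := by
  obtain ⟨g1, g2, g3, g4⟩ := TaskFix.taskFix G P L hC τ c' a' hτ hτ1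
  have hτc : τ • c = c := hτ.ax c hca'
  have h1 := persp_conj hC (ρ := τ) hσ
  rw [hτc] at h1
  have h2 : τ * σ * τ⁻¹ ≠ 1 := fun h => hσ1 (conj_eq_one_iff.1 h)
  have h3 : c ∉ τ • a := by
    intro h
    rw [← hτc, hC.inc] at h
    exact hca h
  have h4 : a = τ • a := axis_unique hC c hE hσ1 h2 hσ h1 hca h3
  rcases g2 a h4.symm with h5 | h5
  · exact absurd (h5 ▸ hca') hca
  · exact h5

end

end Pool.Agent.H180.Sg
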