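import Pool.Agent.H180.Sg.Comm
import Mathlib.LinearAlgebra.Matrix.Charpoly.FiniteField

/-! The structure of the exceptional flags and antiflags. -/

set_option autoImplicit false
set_option linter.unusedSectionVars false

namespace Pool.Agent.H180.Sg

open Configuration Configuration.ProjectivePlane Finset MulAction Pool.Agent.H634R3.PPC
  Pool.Agent.H634R3.WG Pool.Agent.TH56.TO Pool.Agent.H180.Pp Pool.Agent.H180.Pf
  Pool.Agent.N367.PPD Pool.Agent.H180.Mo

section

variable {P L : Type} [Fintype P] [Fintype L] [Membership P L] [ProjectivePlane P L]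

/-- a centre and an axis of elations -/
theorem flag_of (hn : 3 ≤ order P L) {c c' : P} {a a' : L} (h1 : c ∈ a) (h2 : c' ∈ a')
    (h3 : Exc a c) (h4 : Exc a' c') (h5 : c ∈ a') : Exc a' c := by
  obtain ⟨σ, hσ1, hσ⟩ := (exc_iff hn a c).1 h3
  obtain ⟨τ, hτ1, hτ⟩ := (exc_iff hn a' c').1 h4
  by_cases hcc : c = c'
  · rw [hcc]; exact h4
  by_cases haa : a = a'
  · rw [← haa]; exact h3
  have h6 : c' ∉ a := fun h => haa (line_eq hcc h1 h h5 h2)
  obtain ⟨ρ, hρ1, hρ⟩ := comm_ela (aut_col (P := P) (L := L)) hσ hτ hσ1 hτ1 h1 h5 h2 h6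
  exact (exc_iff hn a' c).2 ⟨ρ, hρ1, hρ⟩

/-- there is no polarity without absolute points -/
theorem no_pol (f : P → L) (hf : Function.Injective f) (h0 : ∀ x, x ∉ f x)
    (hs : ∀ x y, x ∈ f y → y ∈ f x) : False := by
  classical
  set n := order P L with hn
  have hn1 : 1 < n := one_lt_order P L
  obtain ⟨p, hp, hpn⟩ := Nat.exists_prime_and_dvd (n := n) (by omega)
  have : Fact p.Prime := ⟨hp⟩
  have hn0 : (n : ZMod p) = 0 := (ZMod.natCast_eq_zero_iff n p).2 hpn
  let A : Matrix P P (ZMod p) := fun x y => if y ∈ f x then 1 else 0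
  let J : Matrix P P (ZMod p) := fun _ _ => 1
  have hrow : ∀ x : P, (univ.filter fun y : P => y ∈ f x).card = n + 1 := by
    intro x
    have := pointCount_eq P (f x)
    rw [← hn] at this
    rw [← this, pointCount, Nat.card_eq_fintype_card, Fintype.card_subtype]
  have hAJ : A * J = J := by
    ext x z
    rw [Matrix.mul_apply]
    simp only [A, J, mul_one]
    rw [← Finset.sum_filter, sum_const, hrow]
    simp [hn0]
  have hAA : A * A = J := by
    ext x z
    rw [Matrix.mul_apply]
    simp only [A, J]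
    have h1 : ∀ y : P, ((if y ∈ f x then (1 : ZMod p) else 0) *
        if z ∈ f y then (1 : ZMod p) else 0) = if y ∈ f x ∧ y ∈ f z then 1 else 0 := by
      intro y
      have h2 : z ∈ f y ↔ y ∈ f z := ⟨hs z y, hs y z⟩
      by_cases h3 : y ∈ f x <;> by_cases h4 : y ∈ f z <;> simp [h2, h3, h4]
    rw [Finset.sum_congr rfl fun y _ => h1 y, ← Finset.sum_filter, sum_const]
    suffices h5 : ((univ.filter fun y : P => y ∈ f x ∧ y ∈ f z).card : ZMod p) = 1 by
      rw [nsmul_eq_mul, mul_one]; exact h5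
    by_cases hxz : x = z
    · subst hxz
      simp only [and_self]
      rw [hrow]
      simp [hn0]
    · have hne : f x ≠ f z := fun e => hxz (hf e)
      have h8 : (univ.filter fun y : P => y ∈ f x ∧ y ∈ f z) = {mt P (f x) (f z)} := by
        ext y
        simp only [mem_filter, mem_univ, true_and, mem_singleton]
        constructor
        · rintro ⟨h9, h10⟩
          exact pt_eq hne h9 (mt_left hne) h10 (mt_right hne)
        · rintro rfl
          exact ⟨mt_left hne, mt_right hne⟩
      rw [h8]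
      simp
  have hpow : ∀ k : ℕ, A ^ (k + 2) = J := by
    intro k
    induction k with
    | zero => rw [zero_add, pow_two, hAA]
    | succ k ih => rw [show k + 1 + 2 = (k + 2) + 1 by ring, pow_succ', ih, hAJ]
  have htr := ZMod.trace_pow_card A
  obtain ⟨k, hk⟩ : ∃ k, p = k + 2 := ⟨p - 2, by have := hp.two_le; omega⟩
  have h1 : A ^ p = J := by
    have := hpow k
    rw [← hk] at this
    exact this
  have h2 : A.trace = 0 := by
    simp only [Matrix.trace, Matrix.diag, A]
    apply Finset.sum_eq_zero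
    intro x _
    rw [if_neg (h0 x)]
  rw [h1, h2, zero_pow hp.pos.ne'] at htr
  have h3 : J.trace = ((n ^ 2 + n + 1 : ℕ) : ZMod p) := by
    simp only [Matrix.trace, Matrix.diag, J]
    rw [sum_const, card_univ, card_points P L]
    simp [hn]
  rw [h3] at htr
  push_cast at htr
  rw [hn0] at htr
  simp at htr

/-- the elations are trivial if there are no exceptional flags -/
theorem ela_one (hn : 3 ≤ order P L) (hF : ∀ (c : P) (a : L), c ∈ a → ¬ Exc a c) (g : Aut P L)
    (c : P) (a : L) (hca : c ∈ a) (hg : Persp g c a) : g = 1 := by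
  by_contra h
  exact hF c a hca ((exc_iff hn a c).2 ⟨g, h, hg⟩)

/-- without exceptional flags, the exceptional antiflags are polar -/
theorem anti_sym (hn : 3 ≤ order P L) (hF : ∀ (c : P) (a : L), c ∈ a → ¬ Exc a c)
    {c c' : P} {a a' : L} (h : Exc a c) (h' : Exc a' c') : (c ∈ a' → c' ∈ a) ∧ (c = c' ↔ a = a') := by
  have hC := aut_col (P := P) (L := L)
  obtain ⟨σ, hσ1, hσ⟩ := (exc_iff hn a c).1 h
  obtain ⟨τ, hτ1, hτ⟩ := (exc_iff hn a' c').1 h'
  have hE := ela_one hn hF
  have hca : c ∉ a := fun e => hF c a e h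
  have hca' : c' ∉ a' := fun e => hF c' a' e h'
  refine ⟨fun e => hom_sym hC (fun g b hb hP => hE g c b hb hP) hσ hτ hσ1 hτ1 hca e, ?_, ?_⟩
  · rintro rfl
    exact axis_unique hC c (fun g b hb hP => hE g c b hb hP) hσ1 hτ1 hσ hτ hca hca'
  · rintro rfl
    have hCd := col_dual hC
    exact axis_unique (P := Dual L) (L := Dual P) hCd a
      (fun g b hb hP => hE g b a hb ⟨hP.ce, hP.ax⟩) hσ1 hτ1 ⟨hσ.ce, hσ.ax⟩ ⟨hτ.ce, hτ.ax⟩ hca hca'

/-- without exceptional flags, there are few exceptional antiflags -/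
theorem anti_card (hn : 3 ≤ order P L) (hF : ∀ (c : P) (a : L), c ∈ a → ¬ Exc a c) :
    {p : P × L | Exc p.2 p.1}.ncard ≤ order P L ^ 2 + order P L := by
  by_contra hcon
  push Not at hcon
  have hinj : Set.InjOn Prod.fst {p : P × L | Exc p.2 p.1} := by
    rintro ⟨c, a⟩ h ⟨c', a'⟩ h' e
    simp only at e
    exact Prod.ext e ((anti_sym hn hF h h').2.1 e)
  have h1 : {c : P | ∃ a : L, Exc a c}.ncard = {p : P × L | Exc p.2 p.1}.ncard := by
    rw [← hinj.ncard_image]
    congr 1
    ext c
    constructor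
    · rintro ⟨a, h⟩
      exact ⟨(c, a), h, rfl⟩
    · rintro ⟨⟨c', a⟩, h, rfl⟩
      exact ⟨a, h⟩
  have h2 : {c : P | ∃ a : L, Exc a c} = Set.univ := by
    apply Set.eq_of_subset_of_ncard_le (Set.subset_univ _) _ (Set.toFinite _)
    rw [h1, Set.ncard_univ, Nat.card_eq_fintype_card, card_points P L]
    omega
  have h3 : ∀ c : P, ∃ a : L, Exc a c := fun c => by
    have : c ∈ {c : P | ∃ a : L, Exc a c} := by rw [h2]; trivial
    exact this
  choose f hf using h3
  refine no_pol f ?_ (fun x hx => hF x _ hx (hf x)) ?_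
  · intro x y e
    exact (anti_sym hn hF (hf x) (hf y)).2.2 e
  · intro x y hxy
    exact (anti_sym hn hF (hf x) (hf y)).1 hxy

/-- the exceptional pairs are invariant -/
theorem exc_smul (hn : 3 ≤ order P L) (g : Aut P L) {c : P} {a : L} (h : Exc a c) :
    Exc (g • a) (g • c) := by
  obtain ⟨σ, hσ1, hσ⟩ := (exc_iff hn a c).1 h
  exact (exc_iff hn _ _).2 ⟨_, fun e => hσ1 (conj_eq_one_iff.1 e),
    persp_conj (aut_col (P := P) (L := L)) (ρ := g) hσ⟩

/-- point-transitive planes have no exceptional pairs -/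
theorem transitive (hpp : ¬ IsPrimePow (order P L)) (hn : 3 ≤ order P L)
    (ht : ∀ x y : P, ∃ g : Aut P L, g • x = y) (c : P) (a : L) : ¬ Exc a c := by
  have hF : ∀ (c : P) (a : L), c ∈ a → ¬ Exc a c := by
    intro c a hca h
    have h1 : {C : P | C ∈ a ∧ Exc a C} = {C : P | C ∈ a} := by
      ext C
      refine ⟨fun h => h.1, fun hC => ⟨hC, ?_⟩⟩
      obtain ⟨g, rfl⟩ := ht c C
      exact flag_of hn ((aut_col (P := P) (L := L)).inc g c a |>.2 hca) hca (exc_smul hn g h) h hC
    have h2 := exc_on hpp hn a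
    have h3 : {C : P | C ∈ a}.ncard = order P L + 1 := by
      have := pointCount_eq P a
      rw [← this, pointCount]
      rfl
    rw [h1, h3] at h2
    omega
  intro h
  have h1 : ∀ x : P, ∃ b : L, Exc b x := by
    intro x
    obtain ⟨g, rfl⟩ := ht c x
    exact ⟨_, exc_smul hn g h⟩
  choose f hf using h1
  refine no_pol f ?_ (fun x hx => hF x _ hx (hf x)) ?_
  · intro x y e
    exact (anti_sym hn hF (hf x) (hf y)).2.2 e
  · intro x y hxy
    exact (anti_sym hn hF (hf x) (hf y)).1 hxy

end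

end Pool.Agent.H180.Sg
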