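import Pool.Agent.H180.Sg.Plane
import Mathlib.LinearAlgebra.Matrix.Charpoly.FiniteField

/-! The plane of a planar difference set whose order is not a prime power has no perspectivities. -/

set_option autoImplicit false
set_option linter.unusedSectionVars false

namespace Pool.Agent.H180.Sg

open Configuration Configuration.ProjectivePlane Finset MulAction Pool.Agent.H634R3.PPC
  Pool.Agent.H634R3.WG Pool.Agent.TH56.TO Pool.Agent.H180.Pp Pool.Agent.H180.Pf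
  Pool.Agent.N367.PPD Pool.Agent.H180.Mo

section

variable {G : Type} [Group G] [Fintype G] [DecidableEq G] {D : Finset G} {n : ℕ}

/-- a symmetric translate without absolute points -/
theorem no_polarity (h : IsPDS D n) (c : G) (hc : c ∉ D)
    (hs : ∀ g : G, c * g⁻¹ ∈ D → c * g ∈ D) : False := by
  have hs' : ∀ g : G, c * g ∈ D ↔ c * g⁻¹ ∈ D := by
    intro g
    refine ⟨fun h1 => hs g⁻¹ (by rwa [inv_inv]), hs g⟩
  obtain ⟨p, hp, hpn⟩ := Nat.exists_prime_and_dvd (n := n) (by have := h.two; omega)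
  have : Fact p.Prime := ⟨hp⟩
  have hn0 : (n : ZMod p) = 0 := (ZMod.natCast_eq_zero_iff n p).2 hpn
  let A : Matrix G G (ZMod p) := fun x y => if c * (x * y⁻¹) ∈ D then 1 else 0
  let J : Matrix G G (ZMod p) := fun _ _ => 1
  have hrow : ∀ x : G, (univ.filter fun y : G => c * (x * y⁻¹) ∈ D).card = n + 1 := by
    intro x
    have := h.cp (c * x)
    rw [← this]
    congr 1
    ext y
    simp only [mem_filter, mem_univ, true_and]
    rw [mul_assoc]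
  have hAJ : A * J = J := by
    ext x z
    rw [Matrix.mul_apply]
    simp only [A, J, mul_one]
    rw [← Finset.sum_filter, sum_const, hrow]
    simp [hn0]
  have hAA : A * A = J := by
    ext x z
    rw [Matrix.mul_apply]
    simp only [A, J]
    have h1 : ∀ y : G, ((if c * (x * y⁻¹) ∈ D then (1 : ZMod p) else 0) *
        if c * (y * z⁻¹) ∈ D then (1 : ZMod p) else 0) =
        if c * (x * y⁻¹) ∈ D ∧ c * (z * y⁻¹) ∈ D then 1 else 0 := by
      intro y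
      have h2 : c * (y * z⁻¹) ∈ D ↔ c * (z * y⁻¹) ∈ D := by
        rw [hs' (y * z⁻¹)]
        have : (y * z⁻¹)⁻¹ = z * y⁻¹ := by group
        rw [this]
      by_cases h3 : c * (x * y⁻¹) ∈ D <;> by_cases h4 : c * (z * y⁻¹) ∈ D <;> simp [h2, h3, h4]
    rw [Finset.sum_congr rfl fun y _ => h1 y, ← Finset.sum_filter, sum_const]
    suffices h5 : ((univ.filter fun y : G => c * (x * y⁻¹) ∈ D ∧ c * (z * y⁻¹) ∈ D).card : ZMod p)
        = 1 by
      rw [nsmul_eq_mul, mul_one]; exact h5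
    by_cases hxz : x = z
    · subst hxz
      simp only [and_self]
      rw [hrow]
      simp [hn0]
    · have hne : c * x ≠ c * z := fun e => hxz (mul_left_cancel e)
      obtain ⟨l, h6, h7⟩ := h.exl ⟨c * x⟩ ⟨c * z⟩ (fun e => hne (by injection e))
      rw [mem_iff] at h6 h7
      have h8 : (univ.filter fun y : G => c * (x * y⁻¹) ∈ D ∧ c * (z * y⁻¹) ∈ D) = {l.v} := by
        ext y
        simp only [mem_filter, mem_univ, true_and, mem_singleton]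
        constructor
        · rintro ⟨h9, h10⟩
          have h11 : (⟨c * x⟩ : Pt D) ∈ (⟨y⟩ : Ln D) := by rw [mem_iff, mul_assoc]; exact h9
          have h12 : (⟨c * z⟩ : Pt D) ∈ (⟨y⟩ : Ln D) := by rw [mem_iff, mul_assoc]; exact h10
          rcases h.unl _ _ _ _ h11 h12 h6 h7 with h13 | h13
          · exact absurd (by injection h13) hne
          · exact congrArg Ln.v h13
        · rintro rfl
          rw [← mul_assoc, ← mul_assoc]
          exact ⟨h6, h7⟩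
      rw [h8]
      simp
  have hpow : ∀ k : ℕ, A ^ (k + 2) = J := by
    intro k
    induction k with
    | zero => rw [zero_add, pow_two, hAA]
    | succ k ih => rw [show k + 1 + 2 = (k + 2) + 1 by ring, pow_succ', ih, hAJ]
  have htr := ZMod.trace_pow_card A
  obtain ⟨k, hk⟩ : ∃ k, p = k + 2 := ⟨p - 2, by have := hp.two_le; omega⟩
  have h1 : A ^ p = J := by
    have := hpow k
    rw [← hk] at this
    exact this
  have h2 : A.trace = 0 := by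
    simp only [Matrix.trace, Matrix.diag, A]
    apply Finset.sum_eq_zero
    intro x _
    rw [mul_inv_cancel, mul_one, if_neg hc]
  rw [h1, h2, zero_pow hp.pos.ne'] at htr
  have h3 : J.trace = ((n ^ 2 + n + 1 : ℕ) : ZMod p) := by
    simp only [Matrix.trace, Matrix.diag, J]
    rw [sum_const, card_univ, h.cG]
    simp
  rw [h3] at htr
  push_cast at htr
  rw [hn0] at htr
  simp at htr

/-- the translation by `g` -/
def trl (D : Finset G) (g : G) : Aut (Pt D) (Ln D) :=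
  ⟨(⟨fun x => ⟨x.v * g⟩, fun x => ⟨x.v * g⁻¹⟩, fun x => by simp, fun x => by simp⟩,
    ⟨fun x => ⟨x.v * g⟩, fun x => ⟨x.v * g⁻¹⟩, fun x => by simp, fun x => by simp⟩), by
    intro x k
    show x.v * g * (k.v * g)⁻¹ ∈ D ↔ x.v * k.v⁻¹ ∈ D
    have : x.v * g * (k.v * g)⁻¹ = x.v * k.v⁻¹ := by group
    rw [this]⟩

theorem ela_all (h : IsPDS D n) {κ : G} (hκ : κ ∈ D) :
    let _ := plane h
    ∀ σ : Aut (Pt D) (Ln D), σ ≠ 1 → Persp σ (⟨κ⟩ : Pt D) (⟨1⟩ : Ln D) →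
      ∀ δ ∈ D, ∃ ρ : Aut (Pt D) (Ln D), ρ ≠ 1 ∧ Persp ρ (⟨δ⟩ : Pt D) (⟨1⟩ : Ln D) := by
  intro _i σ hσ1 hσ δ hδ
  by_contra hcon
  have hC := aut_col (P := Pt D) (L := Ln D)
  have hκδ : κ ≠ δ := by
    rintro rfl
    exact hcon ⟨σ, hσ1, hσ⟩
  have h1 := persp_conj hC (ρ := trl D (δ⁻¹ * κ)) hσ
  have e1 : trl D (δ⁻¹ * κ) • (⟨κ⟩ : Pt D) = ⟨κ * (δ⁻¹ * κ)⟩ := rfl
  have e2 : trl D (δ⁻¹ * κ) • (⟨1⟩ : Ln D) = ⟨δ⁻¹ * κ⟩ := by
    show (⟨1 * (δ⁻¹ * κ)⟩ : Ln D) = _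
    rw [one_mul]
  rw [e1, e2] at h1
  have h2 : trl D (δ⁻¹ * κ) * σ * (trl D (δ⁻¹ * κ))⁻¹ ≠ 1 :=
    fun e => hσ1 (conj_eq_one_iff.1 e)
  have m1 : (⟨κ⟩ : Pt D) ∈ (⟨1⟩ : Ln D) := by rw [mem_iff]; simpa using hκ
  have m2 : (⟨κ⟩ : Pt D) ∈ (⟨δ⁻¹ * κ⟩ : Ln D) := by
    rw [mem_iff]
    have : κ * (δ⁻¹ * κ)⁻¹ = δ := by group
    rw [this]; exact hδ
  have m3 : (⟨κ * (δ⁻¹ * κ)⟩ : Pt D) ∈ (⟨δ⁻¹ * κ⟩ : Ln D) := by
    rw [mem_iff]
    have : κ * (δ⁻¹ * κ) * (δ⁻¹ * κ)⁻¹ = κ := by group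
    rw [this]; exact hκ
  by_cases m4 : (⟨κ * (δ⁻¹ * κ)⟩ : Pt D) ∈ (⟨1⟩ : Ln D)
  · rw [mem_iff] at m4
    simp only [inv_one, mul_one] at m4
    -- two representations of `κ δ⁻¹`
    obtain ⟨h3, h4⟩ := h.uq κ hκ δ hδ _ m4 κ hκ hκδ (by group)
    exact hκδ h4.symm
  · obtain ⟨ρ, hρ1, hρ⟩ := comm_ela hC hσ h1 hσ1 h2 m1 m2 m3 m4
    have h5 := persp_conj hC (ρ := trl D (δ⁻¹ * κ)⁻¹) hρ
    have e3 : trl D (δ⁻¹ * κ)⁻¹ • (⟨κ⟩ : Pt D) = ⟨δ⟩ := by
      show (⟨κ * (δ⁻¹ * κ)⁻¹⟩ : Pt D) = _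
      congr 1; group
    have e4 : trl D (δ⁻¹ * κ)⁻¹ • (⟨δ⁻¹ * κ⟩ : Ln D) = ⟨1⟩ := by
      show (⟨δ⁻¹ * κ * (δ⁻¹ * κ)⁻¹⟩ : Ln D) = _
      congr 1; group
    rw [e3, e4] at h5
    exact hcon ⟨_, fun e => hρ1 (conj_eq_one_iff.1 e), h5⟩

/-- there are no perspectivities if the order is not a prime power -/
theorem no_persp (h : IsPDS D n) (hpp : ¬ IsPrimePow n) :
    let _ := plane h
    ∀ (σ : Aut (Pt D) (Ln D)) (c : Pt D) (a : Ln D), Persp σ c a → σ = 1 := by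
  intro _i
  have ho : order (Pt D) (Ln D) = n := order_eq h
  have hC := aut_col (P := Pt D) (L := Ln D)
  have hpp' : ¬ IsPrimePow (order (Pt D) (Ln D)) := by rw [ho]; exact hpp
  have hn3 : 3 ≤ order (Pt D) (Ln D) := by
    rw [ho]
    rcases Nat.lt_or_ge n 3 with h3 | h3
    · exfalso
      have : n = 2 := by have := h.two; omega
      subst this
      exact hpp Nat.prime_two.isPrimePow
    · exact h3
  -- reduction to the axis `1`
  have hred : ∀ (σ : Aut (Pt D) (Ln D)) (c : Pt D) (a : Ln D), σ ≠ 1 → Persp σ c a →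
      ∃ ρ : Aut (Pt D) (Ln D), ρ ≠ 1 ∧ Persp ρ (⟨c.v * a.v⁻¹⟩ : Pt D) (⟨1⟩ : Ln D) := by
    intro σ c a hσ1 hσ
    have h1 := persp_conj hC (ρ := trl D a.v⁻¹) hσ
    have e2 : trl D a.v⁻¹ • a = (⟨1⟩ : Ln D) := by
      show (⟨a.v * a.v⁻¹⟩ : Ln D) = _
      congr 1; group
    rw [e2] at h1
    exact ⟨_, fun e => hσ1 (conj_eq_one_iff.1 e), h1⟩
  -- no elations
  have hela : ∀ (σ : Aut (Pt D) (Ln D)) (c : Pt D) (a : Ln D), c ∈ a → Persp σ c a → σ = 1 := by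
    intro σ c a hca hσ
    by_contra hσ1
    obtain ⟨ρ, hρ1, hρ⟩ := hred σ c a hσ1 hσ
    have hall := ela_all h (κ := c.v * a.v⁻¹) hca ρ hρ1 hρ
    have h1 := exc_on hpp' hn3 (⟨1⟩ : Ln D)
    have h2 : n + 1 ≤ {C : Pt D | C ∈ (⟨1⟩ : Ln D) ∧ Exc (⟨1⟩ : Ln D) C}.ncard := by
      rw [← h.cD]
      have h3 : ((fun x : G => (⟨x⟩ : Pt D)) '' (D : Set G)) ⊆
          {C : Pt D | C ∈ (⟨1⟩ : Ln D) ∧ Exc (⟨1⟩ : Ln D) C} := by
        rintro _ ⟨δ, hδ, rfl⟩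
        refine ⟨?_, (exc_iff hn3 _ _).2 (hall δ hδ)⟩
        rw [mem_iff]; simpa using hδ
      have h4 := Set.ncard_le_ncard h3 (Set.toFinite _)
      rw [Set.ncard_image_of_injective _ (fun x y e => by injection e), Set.ncard_coe_finset] at h4
      exact h4
    rw [ho] at h1
    omega
  intro σ c a hσ
  by_contra hσ1
  by_cases hca : c ∈ a
  · exact hσ1 (hela σ c a hca hσ)
  · obtain ⟨ρ, hρ1, hρ⟩ := hred σ c a hσ1 hσ
    have hc0 : c.v * a.v⁻¹ ∉ D := hca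
    set c₀ := c.v * a.v⁻¹ with hc₀
    refine no_polarity h c₀ hc0 fun g hg => ?_
    have h1 := persp_conj hC (ρ := trl D g) hρ
    have e1 : trl D g • (⟨c₀⟩ : Pt D) = ⟨c₀ * g⟩ := rfl
    have e2 : trl D g • (⟨1⟩ : Ln D) = ⟨g⟩ := by
      show (⟨1 * g⟩ : Ln D) = _
      rw [one_mul]
    rw [e1, e2] at h1
    have h2 := hom_sym hC (fun τ b hb hP => hela τ _ b hb hP) hρ h1 hρ1
      (fun e => hρ1 (conj_eq_one_iff.1 e))
      (by rw [mem_iff]; simpa using hc0) (by rw [mem_iff]; exact hg)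
    rw [mem_iff] at h2
    simpa using h2

end

end Pool.Agent.H180.Sg
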