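import Pool.Agent.H180.Sg.Comm

/-! The projective plane of a planar difference set. -/

set_option autoImplicit false
set_option linter.unusedSectionVars false

namespace Pool.Agent.H180.Sg

open Configuration Configuration.ProjectivePlane Finset

section

variable {G : Type} [Group G]

/-- points -/
@[ext] structure Pt (D : Finset G) where
  v : G

/-- lines -/
@[ext] structure Ln (D : Finset G) where
  v : G

variable {D : Finset G}

instance : Membership (Pt D) (Ln D) := ⟨fun l p => p.v * l.v⁻¹ ∈ D⟩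

lemma mem_iff (p : Pt D) (l : Ln D) : p ∈ l ↔ p.v * l.v⁻¹ ∈ D := Iff.rfl

/-- planar difference sets -/
structure IsPDS [Fintype G] (D : Finset G) (n : ℕ) : Prop where
  two : 2 ≤ n
  cD : D.card = n + 1
  cG : Fintype.card G = n ^ 2 + n + 1
  ex : ∀ g : G, g ≠ 1 → ∃ d ∈ D, ∃ e ∈ D, d * e⁻¹ = g
  uq : ∀ d ∈ D, ∀ e ∈ D, ∀ d' ∈ D, ∀ e' ∈ D, d ≠ e → d * e⁻¹ = d' * e'⁻¹ → d = d' ∧ e = e'

variable [Fintype G] [DecidableEq G] {n : ℕ}

namespace IsPDS

variable (h : IsPDS D n)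

include h

/-- the differences on the other side -/
theorem uq' {d e d' e' : G} (hd : d ∈ D) (he : e ∈ D) (hd' : d' ∈ D) (he' : e' ∈ D) (hde : d ≠ e)
    (heq : d⁻¹ * e = d'⁻¹ * e') : d = d' ∧ e = e' := by
  have h1 : d' * d⁻¹ = e' * e⁻¹ := by
    have : d' * (d⁻¹ * e) = d' * (d'⁻¹ * e') := by rw [heq]
    rw [mul_inv_cancel_left] at this
    rw [← this]; group
  by_cases hdd : d' = d
  · subst hdd
    exact ⟨rfl, mul_left_cancel heq⟩
  · obtain ⟨h2, h3⟩ := h.uq d' hd' d hd e' he' e he hdd h1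
    exact absurd h3 hde

theorem ex' (g : G) (hg : g ≠ 1) : ∃ d ∈ D, ∃ e ∈ D, d⁻¹ * e = g := by
  have h1 : Set.InjOn (fun p : G × G => p.1⁻¹ * p.2) (D.offDiag : Set (G × G)) := by
    rintro ⟨d, e⟩ hp ⟨d', e'⟩ hp' heq
    simp only [coe_offDiag, Set.mem_offDiag, mem_coe] at hp hp'
    obtain ⟨h2, h3⟩ := h.uq' hp.1 hp.2.1 hp'.1 hp'.2.1 hp.2.2 heq
    rw [h2, h3]
  have h2 : D.offDiag.image (fun p : G × G => p.1⁻¹ * p.2) = univ.erase 1 := by
    apply eq_of_subset_of_card_le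
    · intro x hx
      obtain ⟨⟨d, e⟩, hp, rfl⟩ := mem_image.1 hx
      rw [mem_offDiag] at hp
      refine mem_erase.2 ⟨fun e1 => hp.2.2 ?_, mem_univ _⟩
      exact inv_mul_eq_one.1 e1
    · rw [card_image_of_injOn h1, card_erase_of_mem (mem_univ _), card_univ, h.cG, offDiag_card,
        h.cD]
      have : (n + 1) * (n + 1) - (n + 1) = n ^ 2 + n := by
        have : (n + 1) * (n + 1) = n ^ 2 + n + (n + 1) := by ring
        omega
      omega
  have h3 : g ∈ (univ : Finset G).erase 1 := mem_erase.2 ⟨hg, mem_univ _⟩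
  rw [← h2] at h3
  obtain ⟨⟨d, e⟩, hp, h4⟩ := mem_image.1 h3
  rw [mem_offDiag] at hp
  exact ⟨d, hp.1, e, hp.2.1, h4⟩

/-- the line through two points -/
theorem exl (p q : Pt D) (hpq : p ≠ q) : ∃ l : Ln D, p ∈ l ∧ q ∈ l := by
  have h1 : p.v * q.v⁻¹ ≠ 1 := fun e => hpq (Pt.ext (mul_inv_eq_one.1 e))
  obtain ⟨d, hd, e, he, h2⟩ := h.ex _ h1
  refine ⟨⟨d⁻¹ * p.v⟩, ?_, ?_⟩
  · rw [mem_iff]
    have : p.v * (d⁻¹ * p.v)⁻¹ = d := by group
    rw [this]; exact hd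
  · rw [mem_iff]
    have h3 : q.v = e * d⁻¹ * p.v := by
      have : q.v = (p.v * q.v⁻¹)⁻¹ * p.v := by group
      rw [this, ← h2]; group
    have : q.v * (d⁻¹ * p.v)⁻¹ = e := by rw [h3]; group
    rw [this]; exact he

theorem exp (l m : Ln D) (hlm : l ≠ m) : ∃ p : Pt D, p ∈ l ∧ p ∈ m := by
  have h1 : l.v * m.v⁻¹ ≠ 1 := fun e => hlm (Ln.ext (mul_inv_eq_one.1 e))
  obtain ⟨d, hd, e, he, h2⟩ := h.ex' _ h1
  refine ⟨⟨d * l.v⟩, ?_, ?_⟩
  · rw [mem_iff]
    have : d * l.v * l.v⁻¹ = d := by group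
    rw [this]; exact hd
  · rw [mem_iff]
    have : d * l.v * m.v⁻¹ = e := by
      have : d * l.v * m.v⁻¹ = d * (l.v * m.v⁻¹) := by group
      rw [this, ← h2]; group
    rw [this]; exact he

theorem unl (p q : Pt D) (l m : Ln D) (h1 : p ∈ l) (h2 : q ∈ l) (h3 : p ∈ m) (h4 : q ∈ m) :
    p = q ∨ l = m := by
  by_cases hpq : p = q
  · exact Or.inl hpq
  right
  have h5 : p.v * l.v⁻¹ ≠ q.v * l.v⁻¹ := fun e => hpq (Pt.ext (mul_right_cancel e))
  have h6 : p.v * l.v⁻¹ * (q.v * l.v⁻¹)⁻¹ = p.v * m.v⁻¹ * (q.v * m.v⁻¹)⁻¹ := by group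
  obtain ⟨h7, -⟩ := h.uq _ h1 _ h2 _ h3 _ h4 h5 h6
  exact Ln.ext (inv_injective (mul_left_cancel h7))

theorem cl (l : G) : (univ.filter fun x : G => x * l⁻¹ ∈ D).card = n + 1 := by
  rw [← h.cD]
  apply card_bij (fun x _ => x * l⁻¹)
  · intro x hx
    exact (mem_filter.1 hx).2
  · intro x _ y _ e
    exact mul_right_cancel e
  · intro d hd
    exact ⟨d * l, by simp [hd], by simp⟩

theorem cp (x : G) : (univ.filter fun l : G => x * l⁻¹ ∈ D).card = n + 1 := by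
  rw [← h.cD]
  apply card_bij (fun l _ => x * l⁻¹)
  · intro x hx
    exact (mem_filter.1 hx).2
  · intro l _ m _ e
    exact inv_injective (mul_left_cancel e)
  · intro d hd
    exact ⟨d⁻¹ * x, by simp [hd], by simp⟩

theorem ex_point2 (l m : Ln D) : ∃ p : Pt D, p ∉ l ∧ p ∉ m := by
  by_contra hcon
  push Not at hcon
  have h1 : (univ : Finset G) ⊆ (univ.filter fun x : G => x * l.v⁻¹ ∈ D) ∪
      (univ.filter fun x : G => x * m.v⁻¹ ∈ D) := by
    intro x _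
    rw [mem_union, mem_filter, mem_filter]
    by_cases hx : (⟨x⟩ : Pt D) ∈ l
    · exact Or.inl ⟨mem_univ _, hx⟩
    · exact Or.inr ⟨mem_univ _, hcon ⟨x⟩ hx⟩
  have h2 := card_le_card h1
  have h3 := card_union_le (univ.filter fun x : G => x * l.v⁻¹ ∈ D)
    (univ.filter fun x : G => x * m.v⁻¹ ∈ D)
  rw [h.cl, h.cl] at h3
  rw [card_univ, h.cG] at h2
  have := h.two
  nlinarith

theorem ex_line2 (p q : Pt D) : ∃ l : Ln D, p ∉ l ∧ q ∉ l := by
  by_contra hcon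
  push Not at hcon
  have h1 : (univ : Finset G) ⊆ (univ.filter fun l : G => p.v * l⁻¹ ∈ D) ∪
      (univ.filter fun l : G => q.v * l⁻¹ ∈ D) := by
    intro x _
    rw [mem_union, mem_filter, mem_filter]
    by_cases hx : p ∈ (⟨x⟩ : Ln D)
    · exact Or.inl ⟨mem_univ _, hx⟩
    · exact Or.inr ⟨mem_univ _, hcon ⟨x⟩ hx⟩
  have h2 := card_le_card h1
  have h3 := card_union_le (univ.filter fun l : G => p.v * l⁻¹ ∈ D)
    (univ.filter fun l : G => q.v * l⁻¹ ∈ D)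
  rw [h.cp, h.cp] at h3
  rw [card_univ, h.cG] at h2
  have := h.two
  nlinarith

end IsPDS

/-- the plane of a planar difference set -/
@[instance_reducible] noncomputable def plane (h : IsPDS D n) : ProjectivePlane (Pt D) (Ln D) where
  exists_point l := by
    obtain ⟨p, hp, -⟩ := h.ex_point2 l l
    exact ⟨p, hp⟩
  exists_line p := by
    obtain ⟨l, hl, -⟩ := h.ex_line2 p p
    exact ⟨l, hl⟩
  eq_or_eq {p q l m} h1 h2 h3 h4 := h.unl p q l m h1 h2 h3 h4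
  mkPoint {l m} hlm := Classical.choose (h.exp l m hlm)
  mkPoint_ax {l m} hlm := Classical.choose_spec (h.exp l m hlm)
  mkLine {p q} hpq := Classical.choose (h.exl p q hpq)
  mkLine_ax {p q} hpq := Classical.choose_spec (h.exl p q hpq)
  exists_config := by
    have h2 := h.two
    have h1 : 1 < D.card := by rw [h.cD]; omega
    obtain ⟨d, hd, e, he, hde⟩ := one_lt_card.1 h1
    -- two points on the line `1`
    let l₂ : Ln D := ⟨1⟩
    have m2 : (⟨d⟩ : Pt D) ∈ l₂ := by rw [mem_iff]; simpa [l₂] using hd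
    have m3 : (⟨e⟩ : Pt D) ∈ l₂ := by rw [mem_iff]; simpa [l₂] using he
    -- another line through `d`
    obtain ⟨l₃, h3, h4⟩ : ∃ l₃ : Ln D, (⟨d⟩ : Pt D) ∈ l₃ ∧ (⟨e⟩ : Pt D) ∉ l₃ := by
      have h5 : 1 < (univ.filter fun l : G => d * l⁻¹ ∈ D).card := by rw [h.cp]; omega
      obtain ⟨a, ha, hne⟩ := exists_mem_ne h5 1
      refine ⟨⟨a⟩, (mem_filter.1 ha).2, fun hea => ?_⟩
      rcases h.unl ⟨d⟩ ⟨e⟩ l₂ ⟨a⟩ m2 m3 (mem_filter.1 ha).2 hea with h6 | h6
      · exact hde (by injection h6)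
      · have h7 : (1 : G) = a := by injection h6
        exact hne h7.symm
    obtain ⟨p₁, k1, k2⟩ := h.ex_point2 l₂ l₃
    obtain ⟨l₁, k3, k4⟩ := h.ex_line2 (⟨d⟩ : Pt D) ⟨e⟩
    exact ⟨p₁, ⟨d⟩, ⟨e⟩, l₁, l₂, l₃, k1, k2, k3, m2, h3, k4, m3, h4⟩

/-- points as group elements -/
def ptEquiv (D : Finset G) : Pt D ≃ G := ⟨Pt.v, Pt.mk, fun _ => rfl, fun _ => rfl⟩
/-- lines as group elements -/
def lnEquiv (D : Finset G) : Ln D ≃ G := ⟨Ln.v, Ln.mk, fun _ => rfl, fun _ => rfl⟩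

noncomputable instance : Fintype (Pt D) := Fintype.ofEquiv _ (ptEquiv D).symm
noncomputable instance : Fintype (Ln D) := Fintype.ofEquiv _ (lnEquiv D).symm

theorem order_eq (h : IsPDS D n) :
    let _ := plane h
    order (Pt D) (Ln D) = n := by
  let _ := plane h
  have h1 := card_points (Pt D) (Ln D)
  have h2 : Fintype.card (Pt D) = n ^ 2 + n + 1 := by
    rw [Fintype.card_congr (ptEquiv D), h.cG]
  rw [h2] at h1
  set q := order (Pt D) (Ln D)
  rcases lt_trichotomy q n with h | h | h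
  · nlinarith
  · exact h
  · nlinarith

end

end Pool.Agent.H180.Sg
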